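import Pool.Agent.Run7.h820.HQ.Cor

/-!
# Positivity of the Gauss–Bonnet–Chern integrand for squares of Hermitian forms and split
curvature operators

`J` is a linear complex structure of the tangent space (`J² = -1`), not necessarily orthogonal.

`SymForm h`: symmetric bilinear form; `knSq h (x,y,z,w) = h(x,z) h(y,w) - h(x,w) h(y,z)`, the form
which `h` induces on bivectors. `OpNonneg K`: the form `K` on bivectors is nonnegative.

`JSplit J N`: `N` is an algebraic curvature tensor with `N(Jx,Jy,Jz,Jw) = N(x,y,z,w)` whose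
curvature operator is nonnegative on the `J`-invariant bivectors and nonpositive on the
`J`-anti-invariant ones.

`HermData J h q N R`: `R = N + ∑ knSq h_k - ∑ knSq q_l`, with any number of symmetric forms `h_k` of
ANY signature with `h_k(Jx,Jy) = h_k(x,y)`, any number of symmetric forms `q_l` with
`q_l(Jx,Jy) = - q_l(x,y)`, and `JSplit J N`. `HermClass R`: this holds for some `J` and some data;
`HermClassPos R`: moreover some `h_k` is nondegenerate.

`SemiData J h A P R`: `R = P + ∑ knSq h_k + ∑ skewCurv A_l`, with `h_k` positive semidefinite and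
`J`-invariant, `A_l` positive semidefinite forms of type `(1,1)` (`A(Jx,Jy) = A(x,y)`,
`A(x,Jx) ≥ 0`), any number of each, and `P` a curvature tensor of Kähler type with nonnegative
curvature operator; `skewCurv A (x,y,z,w) = 2 A(x,y) A(z,w) + A(x,z) A(y,w) - A(x,w) A(y,z)`, with
sectional curvatures `3 A(x,y)²`.

`GraySplit J κ R`: `R` is a curvature tensor with Gray's identity `R(Jx,Jy,Jz,Jw) = R(x,y,z,w)`
whose curvature operator is at least `κ` on the `J`-invariant bivectors and at most `κ` on the
`J`-anti-invariant ones.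

(1) In every even dimension: if `R` is in the class, then its Gauss–Bonnet–Chern integrand is
nonnegative, and positive if some `h_k` is nondegenerate.
(2) The integrated forms, for fields of curvature tensors (for a closed Riemannian manifold the
integral is the Euler characteristic).
(3) `SemiData` tensors are in the class; their sectional curvatures are nonnegative, and positive
if some `h_k` is positive definite, in which case the integrand is positive.
(4) `GraySplit J κ R` with `J` orthogonal and `κ ≥ 0` implies that `R` is in the class.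

For three skew forms without a common complex structure (3) fails in dimension six
(`Pool.Agent.Results.MP_4a593f_gt.TwoSkewForms`).
-/

set_option autoImplicit false

namespace Pool.Agent.Results.MP_4a593f_gt.HermitianSquares

open MeasureTheory Pool.Agent.W666.GB Pool.Agent.Run7.h820.HQ

theorem result :
    (∀ (m : ℕ) (V : Type) [NormedAddCommGroup V] [InnerProductSpace ℝ V]
      (e : OrthonormalBasis (Fin m × Bool) ℝ V) (R : V → V → V → V → ℝ),
      (HermClass R → 0 ≤ gbc e R) ∧ (HermClassPos R → 0 < gbc e R)) ∧
    (∀ (m : ℕ) (M : Type) [MeasurableSpace M] (μ : Measure M) (K : CurvField m M),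
      (∀ p, HermClass (K.R p)) →
      0 ≤ ∫ p, K.gb p ∂μ ∧
        (Integrable K.gb μ → μ {p | HermClassPos (K.R p)} ≠ 0 → 0 < ∫ p, K.gb p ∂μ)) ∧
    (∀ (V : Type) [NormedAddCommGroup V] [InnerProductSpace ℝ V] (J : V →ₗ[ℝ] V)
      (R P : V → V → V → V → ℝ) (a b : ℕ) (h : Fin a → V → V → ℝ) (A : Fin b → V → V → ℝ),
      (∀ x, J (J x) = -x) → SemiData J h A P R →
      HermClass R ∧ (∀ x y, 0 ≤ R x y x y) ∧
        ((∃ k, ∀ x, x ≠ 0 → 0 < h k x x) →
          HermClassPos R ∧ ∀ x y, LinearIndependent ℝ ![x, y] → 0 < R x y x y)) ∧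
    (∀ (V : Type) [NormedAddCommGroup V] [InnerProductSpace ℝ V] (J : V →ₗ[ℝ] V) (κ : ℝ)
      (R : V → V → V → V → ℝ), (∀ x, J (J x) = -x) →
      (∀ x y, inner ℝ (J x) (J y) = inner ℝ x y) → 0 ≤ κ → GraySplit J κ R →
      HermClass R ∧ (0 < κ → HermClassPos R)) :=
  ⟨fun _ _ _ _ e _ => ⟨fun h => class_gb e h, fun h => class_gb_pos e h⟩,
    fun _ _ _ μ K h => field_gb μ K h,
    fun _ _ _ _ _ _ _ _ _ _ hJ h => ⟨(h.cls hJ).1, fun x y => h.sec x y, fun hk =>
      ⟨(h.cls hJ).2 hk, fun _ _ hxy => h.sec_pos hk hxy⟩⟩,
    fun _ _ _ _ _ _ hJ hJi hκ h => h.cls hJ hJi hκ⟩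

end Pool.Agent.Results.MP_4a593f_gt.HermitianSquares
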