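import Mathlib
import Pool.Agent.Run7.h820.SR.Tfae
import Pool.Agent.Run7.h820.SR.Asm

set_option autoImplicit false

/-!
# MP_16b0ee_an: the strong Marshall bound is equivalent to the spectral bound for self-similar maps

For every `A > 0` (the question is `A = 1`) six statements are equivalent:
1. the strong Marshall bound (uniform over `Σ`) for all `a < A`,
2. the bound for each map of `Σ` separately, `a < A`,
3. the bound `∫ |ψ' ^ t| ≤ (1/(R-1))^(|t|²/(4A) + ε)` for each `ψ ∈ Σ`, each complex `t`, `ε > 0` and all `R` near `1`,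
4. for self-similar maps only, and only along some sequence of radii: the integral of the question is `≤ (1/(R-1))^ε`,
5. for self-similar maps only, and only along some sequence of radii: the bound in 3 for `|t| < 2A`,
6. one explicit inequality for `∫ |ψ' ^ t|` at every radius `1 < R ≤ e³`, without unspecified constants.

The proof. Let `ψ ∈ Σ`, `κ > 0`, `F(z) = r (ψ(z/r) - ψ(1/v₀))`, `r = e^(-3κ)`, `|v₀| = e^(-κ)`. In the coordinate `1/z` the map `F` is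
`b(w) = w exp(-γ(w))`. The equation `A(v) = A(v^N)/N - γ(v exp(A(v^N)/N))` is solved by iteration if `N ≥ 16 B²/κ`, `B` a bound for `γ`,
and `β(v) = v exp(A(v))` is univalent, with `β = b ∘ τ`, `τ(v)^N = β(v^N)`. So `log (vβ'(v)/β(v))` is a sum of `n` terms
`ℓ(τ(v^(N^j)))` up to a bounded error, and on the circle `|v| = exp(-N^(-n))` the terms are nearly independent. So the means of
`|ψ*' ^ t|`, `ψ*(z) = 1/β(1/z)`, are at least the `n`-th powers of the mean of `ψ` at the one radius `R = e^(3κ)`, up to explicit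
factors. The base point `v₀` is chosen by an `L²` argument with the area theorem for the two variable logarithm.
-/

namespace Pool.Agent.Run7.h820.Kept.SelfSimilarReduction

open Filter Topology

/-- The point `r e^{iθ}`. -/
noncomputable def circ (r θ : ℝ) : ℂ := (r : ℂ) * Complex.exp ((θ : ℂ) * Complex.I)

/-- `ψ ∈ Σ` and `h = log ψ'` (the branch vanishing at infinity), exactly as in the problem. -/
def IsSigma (ψ h : ℂ → ℂ) : Prop :=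
  DifferentiableOn ℂ ψ {z : ℂ | 1 < ‖z‖} ∧
  Set.InjOn ψ {z : ℂ | 1 < ‖z‖} ∧
  (∃ b : ℂ, Filter.Tendsto (fun z => ψ z - z) (Bornology.cobounded ℂ) (nhds b)) ∧
  DifferentiableOn ℂ h {z : ℂ | 1 < ‖z‖} ∧
  (∀ z : ℂ, 1 < ‖z‖ → Complex.exp (h z) = deriv ψ z) ∧
  Filter.Tendsto h (Bornology.cobounded ℂ) (nhds 0)

/-- The integral of Q1. -/
noncomputable def marshall (a R : ℝ) (h : ℂ → ℂ) : ℝ :=
  (1 / (2 * Real.pi)) * ∫ θ in (0:ℝ)..(2 * Real.pi),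
    Real.exp (a * ‖h (circ R θ)‖ ^ 2 / Real.log (R ^ 2 / (R ^ 2 - 1)))

/-- The integral mean of `|ψ' ^ t| = |exp (t h)|` over the circle of radius `R`, `t` complex. -/
noncomputable def pmean (t : ℂ) (R : ℝ) (h : ℂ → ℂ) : ℝ :=
  (1 / (2 * Real.pi)) * ∫ θ in (0:ℝ)..(2 * Real.pi), ‖Complex.exp (t * h (circ R θ))‖

/-- The self-similar maps: `ψ = F ∘ τ` with `F` univalent in the neighbourhood `|z| > ρ` of the closed exterior disc and
`τ(z)^N = ψ(z^N)`. So `f = (F⁻¹)^N` satisfies `f(ψ(z)) = ψ(z^N)`: the boundary of the image is invariant under a map which is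
conformal (locally) and expanding near it. -/
def SelfSimilar (ψ : ℂ → ℂ) : Prop := ∃ (N : ℕ) (F τ : ℂ → ℂ) (ρ : ℝ), 2 ≤ N ∧ 0 < ρ ∧ ρ < 1 ∧
  DifferentiableOn ℂ F {z : ℂ | ρ < ‖z‖} ∧ Set.InjOn F {z : ℂ | ρ < ‖z‖} ∧
  ∀ z : ℂ, 1 < ‖z‖ → Real.sqrt ρ < ‖τ z‖ ∧ ψ z = F (τ z) ∧ τ z ^ N = ψ (z ^ N)

theorem result : ∀ A : ℝ, 0 < A → List.TFAE [
    ∀ a : ℝ, 0 < a → a < A → ∃ C R₀ : ℝ, 1 < R₀ ∧ ∀ R : ℝ, 1 < R → R < R₀ →
      ∀ ψ h : ℂ → ℂ, IsSigma ψ h → marshall a R h ≤ C,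
    ∀ ψ h : ℂ → ℂ, IsSigma ψ h → ∀ a : ℝ, 0 < a → a < A → ∃ C : ℝ, ∀ᶠ R in 𝓝[>] (1:ℝ), marshall a R h ≤ C,
    ∀ ψ h : ℂ → ℂ, IsSigma ψ h → ∀ t : ℂ, ∀ ε : ℝ, 0 < ε →
      ∀ᶠ R in 𝓝[>] (1:ℝ), pmean t R h ≤ (1 / (R - 1)) ^ (‖t‖ ^ 2 / (4 * A) + ε),
    ∀ ψ h : ℂ → ℂ, IsSigma ψ h → SelfSimilar ψ → ∀ a : ℝ, 0 < a → a < A → ∀ ε : ℝ, 0 < ε →
      ∃ᶠ R in 𝓝[>] (1:ℝ), marshall a R h ≤ (1 / (R - 1)) ^ ε,
    ∀ ψ h : ℂ → ℂ, IsSigma ψ h → SelfSimilar ψ → ∀ t : ℂ, ‖t‖ < 2 * A → ∀ ε : ℝ, 0 < ε →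
      ∃ᶠ R in 𝓝[>] (1:ℝ), pmean t R h ≤ (1 / (R - 1)) ^ (‖t‖ ^ 2 / (4 * A) + ε),
    ∀ ψ h : ℂ → ℂ, IsSigma ψ h → ∀ κ : ℝ, 0 < κ → κ ≤ 1 → ∀ t : ℂ, ‖t‖ < 2 * A →
      Real.log (pmean t (Real.exp (3 * κ)) h) ≤
        ‖t‖ ^ 2 / (4 * A) * Real.log (⌈144 * Real.log (1 - Real.exp (-κ)) ^ 2 / κ⌉₊ : ℝ) + 2 * ‖t‖ +
          ‖t‖ * Real.sqrt (4 - 2 * Real.log (1 - Real.exp (-(6 * κ))))] := by
  intro A hA
  exact Run7.h820.SR.tfae_all Run7.h820.SR.pcs hA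

end Pool.Agent.Run7.h820.Kept.SelfSimilarReduction
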